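import Mathlib
import Pool.Agent.KS6_27.EncF

/-! # MP_edeaa2_an: returns of the orbits of products of linear forms with algebraic coefficients

Let `d ≥ 3` and let `g`, `h` be real invertible `d × d` matrices; let `F` and `G` be the products of
the linear forms given by their rows. Let `F` and `G` be proportional to forms with algebraic
coefficients and at least `ν > 0` in absolute value at all nonzero integer points. The orbits of
`g` and `h` under the positive diagonal matrices of determinant one are considered modulo integral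
changes of variables; more generally we admit changes of variables by integral matrices `γ` whose
determinant is at most `exp (η L)`.

Part 1. Let `ε > 0`. For a suitable `η > 0` and all large `L` the following holds. Let `diag(a)` and
`diag(a')` be positive of determinant one with entries between `exp (-L)` and `exp L`, and let the
matrix `diag(a) g γ (diag(a') h)⁻¹` be nearly diagonal: the absolute values of its diagonal entries
lie between `exp (-η L)` and `exp (η L)`, those of the other entries are at most `exp (-ε L)`. So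
the points `diag(a) g` and `diag(a') h` are exponentially close. Let `a i` be the largest entry of
`a`, and let `a' i` be the largest entry of `a'` or let `d` be prime and `F` not proportional to an
integral form. Then the `i`-th linear form of `g`, after the change of variables `γ`, is exactly
proportional to the `i`-th linear form of `h`. For `h = g`, a prime number `d` and a counterexample
`F` to the conjecture of Cassels and Swinnerton-Dyer with algebraic coefficients, there are no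
exponentially good returns except the trivial ones: `γ` is an integral multiple of the identity.

Part 2. Let `p` be the smallest prime factor of `d`. Two matrices `x` and `y` are `ε`-close if
`x = diag(b) (1 + E) y γ` with `1 / K ≤ b i ≤ K`, with `|E i j| ≤ ε` and with `γ` integral of
determinant `±1`. Let `N(ε)` be the smallest number of classes into which the orbit of `g` can be
divided such that any two elements of a class are `ε`-close. Then `F` is proportional to an integral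
form if and only if `N(ε) / (log (1 / ε)) ^ (d - d / p)` has a finite lower limit as `ε → 0`. In
other words: for a counterexample `F` to the conjecture with algebraic coefficients
`N(ε) / (log (1 / ε)) ^ (d - d / p) → ∞`.

Both parts use the subspace theorem. They are analogues, for the conjecture of Cassels and
Swinnerton-Dyer, of the criterion and the theorem of Adamczewski and Bugeaud on the expansions of
algebraic numbers. -/

set_option autoImplicit false

open Filter Topology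

namespace Pool.Agent.Results.MP_edeaa2_an.AlgebraicReturns

variable {d : ℕ}

/-- the product of the linear forms given by the rows of `h`, at an integer point -/
noncomputable def F (h : Matrix (Fin d) (Fin d) ℝ) (x : Fin d → ℤ) : ℝ :=
  ∏ i : Fin d, ∑ j : Fin d, h i j * (x j : ℝ)

/-- the product of the linear forms, as a polynomial -/
noncomputable def P (h : Matrix (Fin d) (Fin d) ℝ) : MvPolynomial (Fin d) ℝ :=
  ∏ i : Fin d, ∑ j : Fin d, MvPolynomial.C (h i j) * MvPolynomial.X j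

/-- the product of the linear forms is proportional to a form with integer coefficients -/
def PropInt (h : Matrix (Fin d) (Fin d) ℝ) : Prop :=
  ∃ c : ℝ, c ≠ 0 ∧ ∀ m : Fin d →₀ ℕ, ∃ z : ℤ, MvPolynomial.coeff m (c • P h) = (z : ℝ)

/-- the product of the linear forms is proportional to a form with algebraic coefficients -/
def PropAlg (h : Matrix (Fin d) (Fin d) ℝ) : Prop :=
  ∃ c : ℝ, c ≠ 0 ∧ ∀ m : Fin d →₀ ℕ, IsAlgebraic ℚ (MvPolynomial.coeff m (c • P h))

/-- `x = diag(b) (1 + E) y γ` with `b` between `1 / K` and `K`, with the entries of `E` at most `ε`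
and with `γ` integral of determinant `±1` -/
def Close (K ε : ℝ) (x y : Matrix (Fin d) (Fin d) ℝ) : Prop :=
  ∃ (b : Fin d → ℝ) (E : Matrix (Fin d) (Fin d) ℝ) (γ : Matrix (Fin d) (Fin d) ℤ),
    (∀ i, 1 / K ≤ b i ∧ b i ≤ K) ∧ (∀ i j, |E i j| ≤ ε) ∧ |γ.det| = 1 ∧
    x = Matrix.diagonal b * (1 + E) * y * γ.map (Int.cast : ℤ → ℝ)

/-- The orbit of `g` under the positive diagonal matrices of determinant one can be divided into
`k` classes such that any two elements of a class are close. -/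
def Pieces (K ε : ℝ) (g : Matrix (Fin d) (Fin d) ℝ) (k : ℕ) : Prop :=
  ∃ col : (Fin d → ℝ) → Fin k, ∀ a a' : Fin d → ℝ,
    (∀ i, 0 < a i) → ∏ i, a i = 1 → (∀ i, 0 < a' i) → ∏ i, a' i = 1 → col a = col a' →
    Close K ε (Matrix.diagonal a * g) (Matrix.diagonal a' * g)

lemma close_iff (K ε : ℝ) (x y : Matrix (Fin d) (Fin d) ℝ) :
    Close K ε x y ↔ T6.H49.CSD.Cl K ε x y := by
  constructor
  · rintro ⟨b, E, γ, hb, hE, hγ, h⟩
    exact ⟨b, E, γ, hb, hE, Int.isUnit_iff_abs_eq.2 hγ, h⟩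
  · rintro ⟨b, E, γ, hb, hE, hγ, h⟩
    exact ⟨b, E, γ, hb, hE, Int.isUnit_iff_abs_eq.1 hγ, h⟩

lemma close_mono {K K' ε ε' : ℝ} (hK : 0 < K) (hKK : K ≤ K') (hε : ε ≤ ε')
    {x y : Matrix (Fin d) (Fin d) ℝ} (h : Close K ε x y) : Close K' ε' x y := by
  obtain ⟨b, E, γ, hb, hE, hγ, heq⟩ := h
  exact ⟨b, E, γ, fun i => ⟨(one_div_le_one_div_of_le hK hKK).trans (hb i).1,
    (hb i).2.trans hKK⟩, fun i j => (hE i j).trans hε, hγ, heq⟩

/-- `diag(a)` is positive of determinant one, with entries between `exp (-L)` and `exp L` -/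
def InBall (L : ℝ) (a : Fin d → ℝ) : Prop :=
  (∀ i, 0 < a i) ∧ ∏ i, a i = 1 ∧ ∀ i, |Real.log (a i)| ≤ L

/-- the matrix `N` is nearly diagonal: the diagonal entries have absolute values between
`exp (-t)` and `exp t`, the other entries have absolute values at most `exp (-s)` -/
def NearDiagonal (s t : ℝ) (N : Matrix (Fin d) (Fin d) ℝ) : Prop :=
  (∀ i, Real.exp (-t) ≤ |N i i| ∧ |N i i| ≤ Real.exp t) ∧
    ∀ i j, i ≠ j → |N i j| ≤ Real.exp (-s)

theorem complexity (d : ℕ) (hd : 3 ≤ d) (g : Matrix (Fin d) (Fin d) ℝ) (hg : g.det ≠ 0)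
    (halg : PropAlg g) (ν K : ℝ) (hν : 0 < ν) (hK : 2 ≤ K)
    (hF : ∀ x : Fin d → ℤ, x ≠ 0 → ν ≤ |F g x|) :
    PropInt g ↔ ∃ C : ℝ, ∀ ε₀ : ℝ, 0 < ε₀ → ∃ (ε : ℝ) (k : ℕ), 0 < ε ∧ ε < ε₀ ∧
      Pieces K ε g k ∧ (k : ℝ) ≤ C * Real.log (1 / ε) ^ (d - d / d.minFac) := by
  classical
  obtain ⟨e, rfl⟩ : ∃ e, d = e + 1 := ⟨d - 1, by omega⟩
  constructor
  · intro hint
    obtain ⟨k, col, hcol⟩ := T6.H49.CSD.propInt_pieces (Nat.succ_pos e) hg hν hF hint
    refine ⟨k, fun ε₀ hε₀ => ?_⟩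
    refine ⟨min (ε₀ / 2) (Real.exp (-1)), k, lt_min (by positivity) (Real.exp_pos _),
      lt_of_le_of_lt (min_le_left _ _) (by linarith),
      ⟨col, fun a a' ha0 ha1 ha0' ha1' h => ?_⟩, ?_⟩
    · exact close_mono (by norm_num) hK (lt_min (by positivity) (Real.exp_pos _)).le
        ((close_iff 2 0 _ _).2 (hcol a a' ha0 ha1 ha0' ha1' h))
    · have hpos : 0 < min (ε₀ / 2) (Real.exp (-1)) := lt_min (by positivity) (Real.exp_pos _)
      have h1 : 1 ≤ Real.log (1 / min (ε₀ / 2) (Real.exp (-1))) := by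
        rw [one_div, Real.log_inv]
        have h2 := Real.log_le_log hpos (min_le_right (ε₀ / 2) (Real.exp (-1)))
        rw [Real.log_exp] at h2
        linarith
      exact le_mul_of_one_le_right (Nat.cast_nonneg k) (one_le_pow₀ h1)
  · rintro ⟨C, hC⟩
    by_contra hint
    obtain ⟨ε₀, hε₀, hmain⟩ := KS6_27.complexity_algF (e := e) (by omega) hg halg hν hF hint
      (by linarith : (1 : ℝ) ≤ K) (C + 1)
    obtain ⟨ε, k, hε0, hε, ⟨col, hcol⟩, hk⟩ := hC (min ε₀ (Real.exp (-1)))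
      (lt_min hε₀ (Real.exp_pos _))
    have h1 := hmain ε hε0 (lt_of_lt_of_le hε (min_le_left _ _)) k col
      fun a a' ha0 ha1 ha0' ha1' h => (close_iff K ε _ _).1 (hcol a a' ha0 ha1 ha0' ha1' h)
    have h2 : 1 ≤ Real.log (1 / ε) := by
      rw [one_div, Real.log_inv]
      have h3 := Real.log_le_log hε0 (lt_of_lt_of_le hε (min_le_right _ _)).le
      rw [Real.log_exp] at h3
      linarith
    have h3 : 1 ≤ Real.log (1 / ε) ^ ((e + 1) - (e + 1) / (e + 1).minFac) := one_le_pow₀ h2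
    rw [add_mul] at h1
    linarith

theorem encounters (d : ℕ) (hd : 3 ≤ d) (g h : Matrix (Fin d) (Fin d) ℝ) (hg : g.det ≠ 0)
    (hh : h.det ≠ 0) (halg : PropAlg g) (halg' : PropAlg h) (ν ε : ℝ) (hν : 0 < ν) (hε : 0 < ε)
    (hF : ∀ x : Fin d → ℤ, x ≠ 0 → ν ≤ |F g x|) (hF' : ∀ x : Fin d → ℤ, x ≠ 0 → ν ≤ |F h x|) :
    ∃ η L₀ : ℝ, 0 < η ∧ ∀ L : ℝ, L₀ ≤ L → ∀ (a a' : Fin d → ℝ) (γ : Matrix (Fin d) (Fin d) ℤ),
      InBall L a → InBall L a' → γ.det ≠ 0 → |(γ.det : ℝ)| ≤ Real.exp (η * L) →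
      NearDiagonal (ε * L) (η * L) (Matrix.diagonal a * g * γ.map (Int.cast : ℤ → ℝ) *
        (Matrix.diagonal a' * h)⁻¹) →
      (∀ i, (∀ j, a j ≤ a i) → ((∀ j, a' j ≤ a' i) ∨ (d.Prime ∧ ¬ PropInt g)) →
        ∃ c : ℝ, ∀ j, ∑ l : Fin d, g i l * (γ l j : ℝ) = c * h i j) ∧
      (g = h → d.Prime → ¬ PropInt g → ∃ m : ℤ, γ = m • (1 : Matrix (Fin d) (Fin d) ℤ)) := by
  classical
  obtain ⟨η, L₀, hη, hmain⟩ := KS6_27.encountersF hd hg hh halg halg' hν hF hF' hε
  refine ⟨η, L₀, hη, fun L hL a a' γ ha ha' hγ hdet hN => ?_⟩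
  have happ : ∀ i j, (Matrix.diagonal a * g * γ.map (Int.cast : ℤ → ℝ) *
      (Matrix.diagonal a' * h)⁻¹) i j = a i * KS6_27.c2 g h γ i j * (a' j)⁻¹ := fun i j =>
    KS6_27.c2_diagonal hh (fun i => (ha'.1 i).ne') γ i j
  have hrow : ∀ i, (∀ j, a j ≤ a i) → ((∀ j, a' j ≤ a' i) ∨ (d.Prime ∧ ¬ PropInt g)) →
      ∀ j, j ≠ i → KS6_27.c2 g h γ i j = 0 := fun i hi hor j hj =>
    hmain L hL a a' γ ha.1 ha.2.1 ha'.1 ha'.2.1 ha.2.2 ha'.2.2 hγ hdet
      (fun i => by rw [← happ]; exact hN.1 i) (fun i j hij => by rw [← happ]; exact hN.2 i j hij)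
      i hi hor j hj
  have hlin : ∀ i, (∀ j, j ≠ i → KS6_27.c2 g h γ i j = 0) →
      ∀ j, ∑ l : Fin d, g i l * (γ l j : ℝ) = KS6_27.c2 g h γ i i * h i j := by
    intro i hi j
    have h1 : KS6_27.c2 g h γ * h = g * γ.map (Int.cast : ℤ → ℝ) := by
      rw [KS6_27.c2, Matrix.mul_assoc, Matrix.nonsing_inv_mul _ (isUnit_iff_ne_zero.2 hh),
        Matrix.mul_one]
      rfl
    have h2 := congrFun (congrFun h1 i) j
    rw [Matrix.mul_apply, Matrix.mul_apply, Finset.sum_eq_single i] at h2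
    · rw [h2]
      rfl
    · intro l _ hl
      rw [hi l hl, zero_mul]
    · intro hh
      exact absurd (Finset.mem_univ i) hh
  refine ⟨fun i hi hor => ⟨_, hlin i (hrow i hi hor)⟩, fun hgh hp hint => ?_⟩
  subst hgh
  obtain ⟨i, -, hi⟩ := Finset.exists_max_image (Finset.univ : Finset (Fin d)) (fun j => a j)
    ⟨⟨0, by omega⟩, Finset.mem_univ _⟩
  have hi' : ∀ j, a j ≤ a i := fun j => hi j (Finset.mem_univ _)
  have h1 := hlin i (hrow i hi' (Or.inr ⟨hp, hint⟩))
  have hEg : KS6_27.Eg (g i) (KS6_27.zQ γ) (KS6_27.c2 g g γ i i) := by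
    intro j
    rw [← h1 j]
    refine Finset.sum_congr rfl fun l _ => ?_
    rw [KS6_27.zQ_apply]
    push_cast
    rfl
  obtain ⟨q, hq⟩ := KS6_27.scalar_of_eg hd hp hg hν hF hint i hEg
  have hent : ∀ l j, (γ l j : ℚ) = if l = j then q else 0 := by
    intro l j
    have h2 := congrFun (congrFun hq l) j
    rw [KS6_27.zQ_apply, Matrix.smul_apply, smul_eq_mul, Matrix.one_apply, mul_ite, mul_one,
      mul_zero] at h2
    exact h2
  refine ⟨γ i i, ?_⟩
  ext l j
  rw [Matrix.smul_apply, smul_eq_mul, Matrix.one_apply]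
  have h3 := hent l j
  have h4 := hent i i
  rw [if_pos rfl] at h4
  by_cases hlj : l = j
  · rw [if_pos hlj] at h3 ⊢
    rw [mul_one]
    rw [← h4] at h3
    exact_mod_cast h3
  · rw [if_neg hlj] at h3 ⊢
    rw [mul_zero]
    exact_mod_cast h3

theorem result (d : ℕ) (hd : 3 ≤ d) (g h : Matrix (Fin d) (Fin d) ℝ) (hg : g.det ≠ 0)
    (hh : h.det ≠ 0) (halg : PropAlg g) (halg' : PropAlg h) (ν : ℝ) (hν : 0 < ν)
    (hF : ∀ x : Fin d → ℤ, x ≠ 0 → ν ≤ |F g x|) (hF' : ∀ x : Fin d → ℤ, x ≠ 0 → ν ≤ |F h x|) :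
    (∀ ε : ℝ, 0 < ε → ∃ η L₀ : ℝ, 0 < η ∧ ∀ L : ℝ, L₀ ≤ L →
      ∀ (a a' : Fin d → ℝ) (γ : Matrix (Fin d) (Fin d) ℤ),
      InBall L a → InBall L a' → γ.det ≠ 0 → |(γ.det : ℝ)| ≤ Real.exp (η * L) →
      NearDiagonal (ε * L) (η * L) (Matrix.diagonal a * g * γ.map (Int.cast : ℤ → ℝ) *
        (Matrix.diagonal a' * h)⁻¹) →
      (∀ i, (∀ j, a j ≤ a i) → ((∀ j, a' j ≤ a' i) ∨ (d.Prime ∧ ¬ PropInt g)) →
        ∃ c : ℝ, ∀ j, ∑ l : Fin d, g i l * (γ l j : ℝ) = c * h i j) ∧
      (g = h → d.Prime → ¬ PropInt g → ∃ m : ℤ, γ = m • (1 : Matrix (Fin d) (Fin d) ℤ))) ∧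
    ∀ K : ℝ, 2 ≤ K →
      (PropInt g ↔ ∃ C : ℝ, ∀ ε₀ : ℝ, 0 < ε₀ → ∃ (ε : ℝ) (k : ℕ), 0 < ε ∧ ε < ε₀ ∧
        Pieces K ε g k ∧ (k : ℝ) ≤ C * Real.log (1 / ε) ^ (d - d / d.minFac)) :=
  ⟨fun ε hε => encounters d hd g h hg hh halg halg' ν ε hν hε hF hF',
    fun K hK => complexity d hd g hg halg ν K hν hK hF⟩

end Pool.Agent.Results.MP_edeaa2_an.AlgebraicReturns
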