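import Mathlib
import Pool.Agent.KS6_90.Sup6

/-! # MP_edeaa2_an: an effective isolation theorem

Let `d ≥ 3` and let `F` be the product of the linear forms given by the rows of a real invertible
`d × d` matrix `g`. The isolation theorem of Cassels and Swinnerton-Dyer says that a form `F` which
is close enough to a form proportional to an integral form, and is not itself such a form, takes
values smaller than a given `ν > 0` at nonzero integer points; how close is not specified.

The theorem here gives an explicit rate which is uniform in the integral form. For `ν, R > 0` there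
is a `C` such that for all `g` with entries at most `R`, all real `N ≥ 1` and all integral
polynomials `G`: if all coefficients of `N F - G` are less than `exp (-exp (C N ^ (d ^ 2)))`, then
`F` is proportional to an integral form or `|F x| < ν` for some nonzero integer point `x`.

So the conjecture of Cassels and Swinnerton-Dyer holds for all `F` which are super-Liouville: for
every `C` there are `N ≥ 1` and an integral `G` such that the coefficients of `N F - G` are less than
`exp (-exp (C N ^ (d ^ 2)))`. -/

set_option autoImplicit false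

namespace Pool.Agent.Results.MP_edeaa2_an.EffectiveIsolation

variable {d : ℕ}

/-- the product of the linear forms given by the rows of `h`, at an integer point -/
noncomputable def F (h : Matrix (Fin d) (Fin d) ℝ) (x : Fin d → ℤ) : ℝ :=
  ∏ i : Fin d, ∑ j : Fin d, h i j * (x j : ℝ)

/-- the product of the linear forms, as a polynomial -/
noncomputable def P (h : Matrix (Fin d) (Fin d) ℝ) : MvPolynomial (Fin d) ℝ :=
  ∏ i : Fin d, ∑ j : Fin d, MvPolynomial.C (h i j) * MvPolynomial.X j

/-- the product of the linear forms is proportional to a form with integer coefficients -/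
def PropInt (h : Matrix (Fin d) (Fin d) ℝ) : Prop :=
  ∃ c : ℝ, c ≠ 0 ∧ ∀ m : Fin d →₀ ℕ, ∃ z : ℤ, MvPolynomial.coeff m (c • P h) = (z : ℝ)

theorem result (d : ℕ) (hd : 3 ≤ d) (ν R : ℝ) (hν : 0 < ν) :
    ∃ C : ℝ, 0 < C ∧ ∀ g : Matrix (Fin d) (Fin d) ℝ, g.det ≠ 0 → (∀ i j, |g i j| ≤ R) →
      ∀ (N : ℝ) (G : MvPolynomial (Fin d) ℤ), 1 ≤ N →
      (∀ m : Fin d →₀ ℕ, |N * MvPolynomial.coeff m (P g) - ((MvPolynomial.coeff m G : ℤ) : ℝ)| <
        Real.exp (-Real.exp (C * N ^ (d ^ 2)))) →
      PropInt g ∨ ∃ x : Fin d → ℤ, x ≠ 0 ∧ |F g x| < ν := by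
  obtain ⟨C, hC, hmain⟩ := KS6_90.isolation2 (d := d) hd (ν := ν) (R₀ := R) hν
  refine ⟨C, hC, fun g hg hR N G hN hG => ?_⟩
  by_contra hcon
  push Not at hcon
  obtain ⟨hint, hnu⟩ := hcon
  obtain ⟨m, hm⟩ := hmain g hg hR (fun x hx => hnu x hx) hint N hN G
  exact absurd (hG m) (not_lt.2 hm)

end Pool.Agent.Results.MP_edeaa2_an.EffectiveIsolation
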