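import Mathlib
import Pool.Agent.KS6_90.Main1

/-! # MP_edeaa2_an: the local complexity of the orbit of a counterexample

Let `d ≥ 3` and `V, ν > 0`. We consider all real `d × d` matrices `g` with `|det g| = V` such that
the product `F g` of the linear forms given by the rows of `g` satisfies `|F g| ≥ ν` at all nonzero
integer points. The orbit of `g` is the set of the matrices `diag(a) g` with `a` positive of product
one.

Two matrices `x` and `y` are `ε`-close if `x = diag(b) (1 + E) y γ` with `1 / K ≤ b i ≤ K`, with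
`|E i j| ≤ ε` and with `γ` integral of determinant `±1`.

The theorem: there is a `C` which only depends on `d, V, ν, K` such that for every counterexample
`g` to the conjecture of Cassels and Swinnerton-Dyer and every `n`, the part of the orbit over the
ball `|log a i| ≤ C n` cannot be divided into `n` classes such that any two members of a class are
`ε`-close, if `ε ≤ exp (-exp (C n))`.

In particular the complexity is unbounded already in finite parts of the orbit, at a rate which is
uniform in the counterexample: a counterexample which is not visible in the ball of radius `C n`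
at the scale `exp (-exp (C n))` through `n` classes does not exist. (For the orbit as a whole it is
known that `c (log (1 / ε)) ^ (d - d / p)` classes are needed; this says nothing about a ball of
fixed radius.) -/

set_option autoImplicit false

namespace Pool.Agent.Results.MP_edeaa2_an.LocalComplexity

variable {d : ℕ}

/-- the product of the linear forms given by the rows of `h`, at an integer point -/
noncomputable def F (h : Matrix (Fin d) (Fin d) ℝ) (x : Fin d → ℤ) : ℝ :=
  ∏ i : Fin d, ∑ j : Fin d, h i j * (x j : ℝ)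

/-- the product of the linear forms is proportional to a form with integer coefficients -/
def PropInt (h : Matrix (Fin d) (Fin d) ℝ) : Prop :=
  ∃ c : ℝ, c ≠ 0 ∧ ∀ m : Fin d →₀ ℕ, ∃ z : ℤ, MvPolynomial.coeff m
    (c • (∏ i : Fin d, ∑ j : Fin d,
      MvPolynomial.C (h i j) * MvPolynomial.X j : MvPolynomial (Fin d) ℝ)) = (z : ℝ)

/-- `x = diag(b) (1 + E) y γ` with `b` between `1 / K` and `K`, with the entries of `E` at most `ε`
and with `γ` integral of determinant `±1` -/
def Close (K ε : ℝ) (x y : Matrix (Fin d) (Fin d) ℝ) : Prop :=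
  ∃ (b : Fin d → ℝ) (E : Matrix (Fin d) (Fin d) ℝ) (γ : Matrix (Fin d) (Fin d) ℤ),
    (∀ i, 1 / K ≤ b i ∧ b i ≤ K) ∧ (∀ i j, |E i j| ≤ ε) ∧ |γ.det| = 1 ∧
    x = Matrix.diagonal b * (1 + E) * y * γ.map (Int.cast : ℤ → ℝ)

/-- `diag(a)` is positive of determinant one, with entries between `exp (-r)` and `exp r` -/
def InBall (r : ℝ) (a : Fin d → ℝ) : Prop :=
  (∀ i, 0 < a i) ∧ ∏ i, a i = 1 ∧ ∀ i, |Real.log (a i)| ≤ r

theorem result (d : ℕ) (hd : 3 ≤ d) (V ν K : ℝ) (hV : 0 < V) (hν : 0 < ν) (hK : 1 ≤ K) :
    ∃ C : ℝ, 1 ≤ C ∧ ∀ g : Matrix (Fin d) (Fin d) ℝ, |g.det| = V →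
      (∀ x : Fin d → ℤ, x ≠ 0 → ν ≤ |F g x|) → ¬ PropInt g →
      ∀ n : ℕ, 1 ≤ n → ∀ ε : ℝ, ε ≤ Real.exp (-Real.exp (C * n)) →
      ¬ ∃ col : (Fin d → ℝ) → Fin n, ∀ a a' : Fin d → ℝ, InBall (C * n) a → InBall (C * n) a' →
        col a = col a' → Close K ε (Matrix.diagonal a * g) (Matrix.diagonal a' * g) := by
  obtain ⟨C, hC, hmain⟩ := KS6_90.local_complexity (d := d) hd (V := V) (ν := ν) (K := K) hV hν hK
  refine ⟨C, hC, fun g hdet hnu hint n hn ε hε => ?_⟩
  rintro ⟨col, hcol⟩
  exact hmain g hdet (fun x hx => hnu x hx) hint n hn ε hε col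
    (fun a a' h1 h2 h3 h4 h5 h6 h7 => hcol a a' ⟨h1, h2, h3⟩ ⟨h4, h5, h6⟩ h7)

end Pool.Agent.Results.MP_edeaa2_an.LocalComplexity
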