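import Mathlib
import Pool.Agent.KS6_27.NV9
import Pool.Agent.KS6_27.MV5

/-! # MP_edeaa2_an: the values of a product of linear forms in multiplicative groups

Let `d ≥ 2`, let `g` be a real invertible `d × d` matrix and let `F` be the product of the linear
forms given by its rows. Let `|F(x)| ≥ ν |x| ^ (-κ)` at all nonzero integer points `x`, with `ν > 0`
and `0 ≤ κ < 1`; for `κ = 0` this says that `|F|` is bounded away from zero at the nonzero integer
points.

1. The following are equivalent: (a) `F` takes some value at infinitely many integer points; (b) for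
   some finitely generated group `Γ` of real numbers, `F(x)` is in `Γ` for infinitely many pairwise
   not proportional integer points `x`; (c) on some rational subspace of dimension `m ≥ 2`, `m ∣ d`,
   the form `F` is proportional to the power `G ^ (d / m)` of a product `G` of `m` linearly
   independent linear forms, and `G` is proportional to an integral form.
2. If `d` is prime then (c) says that `F` is proportional to an integral form. So for prime `d` a form
   `F` which is not proportional to an integral form takes every value only finitely often, and the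
   values at infinitely many pairwise not proportional points never lie in a finitely generated
   group.
3. Let `d` be prime, `κ < 1 / d`, let `F` have algebraic coefficients, and let `F` not be proportional
   to an integral form. Then the norms of the values grow: with `N(y)` the constant coefficient of the
   minimal polynomial of `y` over `ℚ`, `|N(F(x))| ≥ c |x| ^ ε` for all nonzero integer points, with
   `c, ε > 0`. Moreover for every finite set `S` of prime numbers there are `c, ε > 0` such that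
   `B ≥ c |x| ^ ε` for all primitive integer points `x` and all factorizations `A B` of the numerator
   of `N(F(x))` in which `A` has no prime factor outside of `S`.

The conjecture of Cassels and Swinnerton-Dyer says that for `d ≥ 3` and `κ = 0` the form `F` is
proportional to an integral form.

The proofs. Part 1: the values of the linear forms at the points in (b) are units of a finitely
generated ring, hence in a finitely generated group (Roquette). On the smallest rational subspace with
infinitely many of the points, the theorem on unit equations in finitely generated groups shows that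
the linear forms which are pairwise not proportional are linearly independent, also together with
their images under automorphisms of the field of complex numbers; so their lines are permuted by these
automorphisms. The lower bound for `|F|` and Minkowski's theorem on linear forms show that all lines
have the same multiplicity. Part 3: the subspace theorem of Schmidt and Schlickewei, applied to all
conjugates of the linear forms. -/

set_option autoImplicit false

open Filter Topology

namespace Pool.Agent.Results.MP_edeaa2_an.ValuesInGroups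

variable {d : ℕ}

/-- the product of the linear forms given by the rows of `h`, at an integer point -/
noncomputable def F (h : Matrix (Fin d) (Fin d) ℝ) (x : Fin d → ℤ) : ℝ :=
  ∏ i : Fin d, ∑ j : Fin d, h i j * (x j : ℝ)

/-- the product of the linear forms, as a polynomial -/
noncomputable def P (h : Matrix (Fin d) (Fin d) ℝ) : MvPolynomial (Fin d) ℝ :=
  ∏ i : Fin d, ∑ j : Fin d, MvPolynomial.C (h i j) * MvPolynomial.X j

/-- the product of the linear forms is proportional to a form with integer coefficients -/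
def PropInt (h : Matrix (Fin d) (Fin d) ℝ) : Prop :=
  ∃ c : ℝ, c ≠ 0 ∧ ∀ m : Fin d →₀ ℕ, ∃ z : ℤ, MvPolynomial.coeff m (c • P h) = (z : ℝ)

/-- the largest absolute value of a coordinate -/
noncomputable def size (x : Fin d → ℤ) : ℝ := ‖(fun j => (x j : ℝ))‖

/-- the points of `X` are pairwise not proportional -/
def NonProp (X : Set (Fin d → ℤ)) : Prop :=
  ∀ x ∈ X, ∀ x' ∈ X, x ≠ x' → ∀ a b : ℤ, a • x = b • x' → a = 0 ∧ b = 0

/-- On a rational subspace of dimension `m ≥ 2`, with `m * k = d`, spanned by the columns of an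
integral matrix `B`, the form `F g` is proportional to the `k`-th power of a product of `m` linearly
independent real linear forms which is proportional to an integral form. -/
def FullPower (g : Matrix (Fin d) (Fin d) ℝ) : Prop :=
  ∃ (m k : ℕ) (B : Matrix (Fin d) (Fin m) ℤ) (h : Matrix (Fin m) (Fin m) ℝ) (c : ℝ), 2 ≤ m ∧
    m * k = d ∧ c ≠ 0 ∧ (∀ y, B.mulVec y = 0 → y = 0) ∧ h.det ≠ 0 ∧ PropInt h ∧
    ∀ y : Fin m → ℤ, F g (B.mulVec y) = c * F h y ^ k

/-- the constant coefficient of the minimal polynomial: the norm of an algebraic number over `ℚ`, up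
to the sign -/
noncomputable def N (y : ℝ) : ℚ := (minpoly ℚ y).coeff 0

/-- the coordinates have no common factor -/
def Primitive (x : Fin d → ℤ) : Prop := Finset.univ.gcd x = 1

/-- all prime factors of `n` lie in `S` -/
def FactorsIn (S : Finset ℕ) (n : ℕ) : Prop := ∀ p : ℕ, p.Prime → p ∣ n → p ∈ S

lemma finite_size (R : ℝ) : {x : Fin d → ℤ | size x ≤ R}.Finite := by
  refine (T6.H49.CSD.finite_box R).subset fun x hx i => ?_
  have h := norm_le_pi_norm (fun j => (x j : ℝ)) i
  rw [Real.norm_eq_abs] at h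
  exact h.trans hx

lemma size_pos {x : Fin d → ℤ} (hx : x ≠ 0) : 1 ≤ size x := by
  obtain ⟨j, hj⟩ := Function.ne_iff.1 hx
  have e1 := norm_le_pi_norm (fun j => (x j : ℝ)) j
  refine le_trans ?_ e1
  rw [Real.norm_eq_abs]
  have e2 : 1 ≤ |x j| := Int.one_le_abs hj
  exact_mod_cast e2

lemma exp_form {c C s b : ℝ} (hs : 0 < s) (hb : 0 < b) (h : c * Real.log s - C ≤ Real.log b) :
    Real.exp (-C) * s ^ c ≤ b := by
  rw [← Real.exp_log hb, Real.rpow_def_of_pos hs, ← Real.exp_add, Real.exp_le_exp]
  linarith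

/-- points with bounded `c * size x ^ ε` -/
lemma finite_of_le {c ε T : ℝ} (hc : 0 < c) (hε : 0 < ε) {X : Set (Fin d → ℤ)}
    (h : ∀ x ∈ X, c * size x ^ ε ≤ T) : X.Finite := by
  refine (finite_size ((T / c) ^ (1 / ε))).subset fun x hx => ?_
  have h1 := h x hx
  have hs : 0 ≤ size x := norm_nonneg _
  have h2 : size x ^ ε ≤ T / c := by
    rw [le_div_iff₀ hc]
    linarith
  have h3 : 0 ≤ size x ^ ε := Real.rpow_nonneg hs _
  calc size x = (size x ^ ε) ^ (1 / ε) := by
        rw [← Real.rpow_mul hs, mul_one_div_cancel hε.ne', Real.rpow_one]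
    _ ≤ (T / c) ^ (1 / ε) := Real.rpow_le_rpow h3 h2 (by positivity)

theorem growth (d : ℕ) (hd : d.Prime) (g : Matrix (Fin d) (Fin d) ℝ) (hg : g.det ≠ 0)
    (halg : ∀ m : Fin d →₀ ℕ, IsAlgebraic ℚ (MvPolynomial.coeff m (P g))) (κ ν : ℝ) (hκ : 0 ≤ κ)
    (hκd : κ < 1 / d) (hν : 0 < ν) (hF : ∀ x : Fin d → ℤ, x ≠ 0 → ν ≤ |F g x| * size x ^ κ) :
    ¬ PropInt g →
      (∃ c ε : ℝ, 0 < c ∧ 0 < ε ∧ ∀ x : Fin d → ℤ, x ≠ 0 → c * size x ^ ε ≤ |(N (F g x) : ℝ)|) ∧
      ∀ S : Finset ℕ, ∃ c ε : ℝ, 0 < c ∧ 0 < ε ∧ ∀ x : Fin d → ℤ, Primitive x →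
        ∀ A B : ℕ, (N (F g x)).num.natAbs = A * B → FactorsIn S A → c * size x ^ ε ≤ B := by
  classical
  have hd0 : 0 < d := hd.pos
  have hdR : (0 : ℝ) < d := by exact_mod_cast hd0
  have hκd' : κ * d < 1 := by
    rw [lt_div_iff₀ hdR] at hκd
    exact hκd
  have hF0 : ∀ x : Fin d → ℤ, x ≠ 0 → F g x ≠ 0 := by
    intro x hx h
    have h1 := hF x hx
    rw [h, abs_zero, zero_mul] at h1
    linarith
  obtain ⟨g', halg', hpoly, hdet'⟩ := KS6_27.NV.exists_alg_rows hd0 halg hF0
  have hFF : ∀ x : Fin d → ℤ, H715R2.FF g' (H715R2.iR x) = F g x := by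
    intro x
    have h1 : H715R2.FF g' (H715R2.iR x) =
        MvPolynomial.eval (H715R2.iR x) (H715R2.polyF g') := by
      rw [H715R2.eval_polyF, H715R2.FF]
    rw [h1, hpoly, H715R2.eval_polyF]
    rfl
  have hF' : ∀ x : Fin d → ℤ, x ≠ 0 →
      ν ≤ |∏ i, ∑ j, g' i j * (x j : ℝ)| * ‖(fun j => (x j : ℝ))‖ ^ κ := by
    intro x hx
    have h1 := hF x hx
    rw [← hFF x] at h1
    exact h1
  have hPI : PropInt g ↔ H715R2.PropInt g' := by
    unfold PropInt H715R2.PropInt
    rw [hpoly]
    rfl
  have part1 : ¬ PropInt g →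
      (∃ c ε : ℝ, 0 < c ∧ 0 < ε ∧ ∀ x : Fin d → ℤ, x ≠ 0 → c * size x ^ ε ≤ |(N (F g x) : ℝ)|) ∧
      ∀ S : Finset ℕ, ∃ c ε : ℝ, 0 < c ∧ 0 < ε ∧ ∀ x : Fin d → ℤ, Primitive x →
        ∀ A B : ℕ, (N (F g x)).num.natAbs = A * B → FactorsIn S A → c * size x ^ ε ≤ B := by
    intro hint
    rw [hPI] at hint
    have hNne : ∀ x : Fin d → ℤ, x ≠ 0 → N (F g x) ≠ 0 := by
      intro x hx
      have h1 : IsAlgebraic ℚ (F g x) := KS6_27.NV.alg_value halg x
      exact minpoly.coeff_zero_ne_zero h1.isIntegral (hF0 x hx)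
    constructor
    · obtain ⟨c, C, hc, h⟩ := KS6_27.NV.core_all hd (hdet' hg) halg' hκ hκd' hν hF' hint
      refine ⟨Real.exp (-C), c, Real.exp_pos _, hc, fun x hx => ?_⟩
      refine exp_form (lt_of_lt_of_le one_pos (size_pos hx)) ?_ ?_
      · exact abs_pos.2 (by exact_mod_cast hNne x hx)
      · have h1 := h x hx
        rw [hFF] at h1
        exact h1
    · intro S
      obtain ⟨c, C, hc, h⟩ := KS6_27.NV.core hd (hdet' hg) halg' hκ hκd' hν hF' hint S
      refine ⟨Real.exp (-C), c, Real.exp_pos _, hc, fun x hx A B hAB hA => ?_⟩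
      have hx0 : x ≠ 0 := KS6_27.NV.prim_ne hx
      refine exp_form (lt_of_lt_of_le one_pos (size_pos hx0)) ?_ ?_
      · have hB : B ≠ 0 := by
          rintro rfl
          rw [mul_zero, Int.natAbs_eq_zero] at hAB
          exact hNne x hx0 (Rat.num_eq_zero.1 hAB)
        exact_mod_cast Nat.pos_of_ne_zero hB
      · have h1 := h x hx A B (by rw [hFF]; exact hAB) hA
        rw [KS6_27.NV.iSup_eq_norm hd0] at h1
        exact h1
  exact part1

theorem result (d : ℕ) (hd : 2 ≤ d) (g : Matrix (Fin d) (Fin d) ℝ) (hg : g.det ≠ 0) (κ ν : ℝ)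
    (hκ : 0 ≤ κ) (hκ1 : κ < 1) (hν : 0 < ν)
    (hF : ∀ x : Fin d → ℤ, x ≠ 0 → ν ≤ |F g x| * size x ^ κ) :
    -- 1. the values, for all `d`
    List.TFAE [∃ v : ℝ, {x : Fin d → ℤ | F g x = v}.Infinite,
      ∃ Γ : Subgroup ℝˣ, Γ.FG ∧ ∃ X : Set (Fin d → ℤ), X.Infinite ∧ NonProp X ∧
        ∀ x ∈ X, ∃ γ ∈ Γ, ((γ : ℝˣ) : ℝ) = F g x,
      FullPower g] ∧
    -- 2. prime `d`
    (d.Prime → (FullPower g ↔ PropInt g)) ∧
    -- 3. the growth of the norms
    (d.Prime → κ < 1 / d → (∀ m : Fin d →₀ ℕ, IsAlgebraic ℚ (MvPolynomial.coeff m (P g))) →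
      ¬ PropInt g →
      (∃ c ε : ℝ, 0 < c ∧ 0 < ε ∧ ∀ x : Fin d → ℤ, x ≠ 0 → c * size x ^ ε ≤ |(N (F g x) : ℝ)|) ∧
      ∀ S : Finset ℕ, ∃ c ε : ℝ, 0 < c ∧ 0 < ε ∧ ∀ x : Fin d → ℤ, Primitive x →
        ∀ A B : ℕ, (N (F g x)).num.natAbs = A * B → FactorsIn S A → c * size x ^ ε ≤ B) := by
  have hd0 : 0 < d := by omega
  have hF0 : ∀ x : Fin d → ℤ, x ≠ 0 → KS6_27.MV.F g x ≠ 0 := by
    intro x hx h
    have h1 : ν ≤ |KS6_27.MV.F g x| * size x ^ κ := hF x hx
    rw [h, abs_zero, zero_mul] at h1
    linarith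
  refine ⟨?_, fun hp => ⟨fun h => KS6_27.MV.propInt_of_pw hp h, fun h => ?_⟩,
    fun hp hκd halg hint => growth d hp g hg halg κ ν hκ hκd hν hF hint⟩
  · tfae_have 1 → 2 := by
      rintro ⟨v, hv⟩
      exact KS6_27.MV.nonProp_of_often hd0 hF0 hv
    tfae_have 2 → 3 := by
      rintro ⟨Γ, hΓ, X, hX, hXp, hXΓ⟩
      exact KS6_27.MV.pw_of_group hd0 hg hκ hκ1 hν hF Γ hΓ X hX hXp hXΓ
    tfae_have 3 → 1 := fun h => KS6_27.MV.often_of_pw hd0 hF0 h
    tfae_finish
  · refine ⟨d, 1, 1, g, 1, hd, mul_one d, one_ne_zero, fun y hy => ?_, hg, h, fun y => ?_⟩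
    · rwa [Matrix.one_mulVec] at hy
    · rw [Matrix.one_mulVec, pow_one, one_mul]

end Pool.Agent.Results.MP_edeaa2_an.ValuesInGroups
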